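import Mathlib

set_option autoImplicit false

/-!
# MP_0e3340_nt: infinitely many triples with three multiplicatively dependent consecutive shifts

For `k ≥ 3` the triple `(2, 2 ^ k - 2, 2 ^ k (2 ^ k - 2))` is admissible:

* `2 ^ k * b * c⁻¹ = 1` for the triple `(2, b, c)` itself,
* `(b + 1) ^ 2 = (2 ^ k - 1) ^ 2 = c + 1` for its first shift `(3, b + 1, c + 1)`,
* `4 ^ k = (2 ^ k) ^ 2 = (b + 2) ^ 2` for its second shift `(4, b + 2, c + 2)`.
-/

namespace Pool.Agent.Results.MP_0e3340_nt.InfinitelyManyTriples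

/-- The integers `x`, `y`, `z` are nonzero and multiplicatively dependent: `x ^ k₁ y ^ k₂ z ^ k₃ = 1`
(in `ℚ`) for some integers `k₁`, `k₂`, `k₃`, not all zero. -/
def MultDep (x y z : ℤ) : Prop :=
  x ≠ 0 ∧ y ≠ 0 ∧ z ≠ 0 ∧ ∃ k₁ k₂ k₃ : ℤ, ¬ (k₁ = 0 ∧ k₂ = 0 ∧ k₃ = 0) ∧
    (x : ℚ) ^ k₁ * (y : ℚ) ^ k₂ * (z : ℚ) ^ k₃ = 1

/-- Admissible triples: pairwise distinct entries larger than `1`, not containing both `2` and `8`,
such that the triple and its shifts by `1` and by `2` are multiplicatively dependent. -/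
def Admissible (a b c : ℤ) : Prop :=
  a ≠ b ∧ a ≠ c ∧ b ≠ c ∧ 1 < a ∧ 1 < b ∧ 1 < c ∧ ¬ (({2, 8} : Set ℤ) ⊆ {a, b, c}) ∧
    MultDep a b c ∧ MultDep (a + 1) (b + 1) (c + 1) ∧ MultDep (a + 2) (b + 2) (c + 2)

theorem family (k : ℕ) (hk : 3 ≤ k) :
    2 < (2 : ℤ) ^ k - 2 ∧ (2 : ℤ) ^ k - 2 < 2 ^ k * (2 ^ k - 2) ∧
      Admissible 2 (2 ^ k - 2) (2 ^ k * (2 ^ k - 2)) := by
  obtain ⟨P, hP⟩ : ∃ P : ℤ, P = 2 ^ k := ⟨_, rfl⟩
  have h8 : 8 ≤ P := by
    rw [hP]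
    calc (8 : ℤ) = 2 ^ 3 := by norm_num
      _ ≤ 2 ^ k := pow_le_pow_right₀ (by norm_num) hk
  have heven : P % 8 = 0 := by
    rw [hP]
    obtain ⟨j, rfl⟩ := Nat.exists_eq_add_of_le hk
    rw [pow_add]
    norm_num
  rw [← hP]
  have hlt : P - 2 < P * (P - 2) := by nlinarith
  have hQ : (P : ℚ) = 2 ^ k := by rw [hP]; push_cast; rfl
  have hP0 : (P : ℚ) ≠ 0 := by rw [hQ]; positivity
  have hP8 : (8 : ℚ) ≤ P := by exact_mod_cast h8
  have hP2 : ((P : ℚ) - 2) ≠ 0 := by intro h; linarith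
  have hP1 : ((P : ℚ) - 1) ≠ 0 := by intro h; linarith
  refine ⟨by omega, hlt, by omega, by omega, by omega, by norm_num, by omega, by omega, ?_,
    ⟨by norm_num, by omega, by nlinarith, (k : ℤ), 1, -1, by omega, ?_⟩,
    ⟨by norm_num, by omega, by nlinarith, 0, 2, -1, by omega, ?_⟩,
    ⟨by norm_num, by omega, by nlinarith, (k : ℤ), -2, 0, by omega, ?_⟩⟩
  · intro h
    have h' : (8 : ℤ) ∈ ({2, P - 2, P * (P - 2)} : Set ℤ) := h (by simp)
    simp only [Set.mem_insert_iff, Set.mem_singleton_iff] at h'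
    rcases h' with h' | h' | h'
    · norm_num at h'
    · omega
    · nlinarith
  · rw [zpow_natCast, zpow_one, zpow_neg_one]
    push_cast
    rw [hQ]
    rw [hQ] at hP2
    field_simp
  · have h3 : (((P * (P - 2) + 1 : ℤ)) : ℚ) = ((P : ℚ) - 1) ^ 2 := by push_cast; ring
    have h4 : ((P - 2 + 1 : ℤ) : ℚ) = (P : ℚ) - 1 := by push_cast; ring
    rw [h3, h4, zpow_zero, zpow_neg_one, one_mul]
    rw [show (2 : ℤ) = ((2 : ℕ) : ℤ) by norm_num, zpow_natCast]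
    field_simp
  · have h4 : ((P - 2 + 2 : ℤ) : ℚ) = (P : ℚ) := by push_cast; ring
    rw [h4, zpow_zero, zpow_natCast, zpow_neg, mul_one]
    rw [show ((2 : ℤ)) = ((2 : ℕ) : ℤ) by norm_num, zpow_natCast, hQ]
    have : (((((2 : ℕ) : ℤ) + ((2 : ℕ) : ℤ) : ℤ)) : ℚ) ^ k = ((2 : ℚ) ^ k) ^ 2 := by
      push_cast
      rw [← pow_mul, mul_comm k 2, pow_mul]
      norm_num
    rw [this]
    field_simp

/-- **There are infinitely many admissible triples `(a, b, c)` with `a < b < c`.** -/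
theorem result : {t : ℤ × ℤ × ℤ | t.1 < t.2.1 ∧ t.2.1 < t.2.2 ∧ Admissible t.1 t.2.1 t.2.2}.Infinite := by
  refine Set.infinite_of_injective_forall_mem
    (f := fun k : ℕ => ((2 : ℤ), (2 : ℤ) ^ (k + 3) - 2, (2 : ℤ) ^ (k + 3) * (2 ^ (k + 3) - 2))) ?_ ?_
  · intro k l h
    simp only [Prod.mk.injEq, true_and] at h
    have h1 : (2 : ℤ) ^ (k + 3) = 2 ^ (l + 3) := by linarith [h.1]
    have := pow_right_injective₀ (a := (2:ℤ)) (by norm_num) (by norm_num) h1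
    omega
  · intro k
    exact family (k + 3) (by omega)

end Pool.Agent.Results.MP_0e3340_nt.InfinitelyManyTriples
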